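import Pool.Agent.W620.BM.Stm

/-!
# BM-FIB: the fibre at a real point is a real form of the matrix algebra
-/

open Matrix
open scoped TensorProduct

namespace Pool.Agent.W359.BM

open Pool.Agent.W620.BM

theorem mem_realForm {n : ℕ} {h m : Mat n} :
    m ∈ realForm h ↔ m * h = h * m.map (starRingEnd ℂ) := Iff.rfl

theorem fib (hcsa : S_csa) : S_fib := by
  intro R B _ _ _ _ _ n hn ρ h hrep hdet hρ
  have : Nonempty (Fin n) := ⟨⟨0, hn⟩⟩
  have hunit : IsUnit h.det := by rw [hdet]; exact isUnit_one
  let _ : Algebra R (realForm h) := Algebra.compHom (realForm h) (algebraMap R ℝ)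
  have hst : IsScalarTower R ℝ (realForm h) := IsScalarTower.of_algebraMap_eq' rfl
  have hmem : ∀ b, ρ b ∈ realForm h := fun b => hρ b
  let g0 : B →+* realForm h := ρ.codRestrict (realForm h) hmem
  let g : B →ₐ[R] realForm h :=
    { g0 with
      commutes' := by
        intro r
        apply Subtype.ext
        change ρ (algebraMap R B r) = _
        rw [hrep.scalar]
        change _ = algebraMap ℝ (Mat n) (algebraMap R ℝ r)
        rfl }
  have hg : ∀ b, ((g b : realForm h) : Mat n) = ρ b := fun b => rfl
  let Φ : (ℝ ⊗[R] B) →ₐ[ℝ] realForm h :=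
    Algebra.TensorProduct.lift (Algebra.ofId ℝ (realForm h)) g
      (fun x y => Algebra.commutes x (g y))
  have hΦ : ∀ b, Φ (1 ⊗ₜ b) = g b := by
    intro b
    simp [Φ]
  obtain ⟨_, hsimple, _⟩ := hcsa R B ℝ
  have hinj : Function.Injective Φ := (Φ : (ℝ ⊗[R] B) →+* realForm h).injective
  have hsurj : Function.Surjective Φ := by
    -- every matrix is `u + i v` with `u`, `v` in the range
    have key : ∀ m : Mat n, ∃ u v : realForm h, u ∈ Φ.range ∧ v ∈ Φ.range ∧
        m = (u : Mat n) + Complex.I • (v : Mat n) := by
      intro m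
      have hm : m ∈ Submodule.span ℂ (Set.range ρ) := by
        rw [hrep.span]; exact Submodule.mem_top
      induction hm using Submodule.span_induction with
      | mem x hx =>
        obtain ⟨b, rfl⟩ := hx
        exact ⟨g b, 0, ⟨1 ⊗ₜ b, hΦ b⟩, Φ.range.zero_mem, by simp [hg]⟩
      | zero => exact ⟨0, 0, Φ.range.zero_mem, Φ.range.zero_mem, by simp⟩
      | add x y _ _ hx hy =>
        obtain ⟨u, v, hu, hv, rfl⟩ := hx
        obtain ⟨u', v', hu', hv', rfl⟩ := hy
        refine ⟨u + u', v + v', Φ.range.add_mem hu hu', Φ.range.add_mem hv hv', ?_⟩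
        push_cast
        rw [smul_add]
        abel
      | smul c x _ hx =>
        obtain ⟨u, v, hu, hv, rfl⟩ := hx
        refine ⟨c.re • u - c.im • v, c.im • u + c.re • v,
          Φ.range.sub_mem (Φ.range.smul_mem hu _) (Φ.range.smul_mem hv _),
          Φ.range.add_mem (Φ.range.smul_mem hu _) (Φ.range.smul_mem hv _), ?_⟩
        push_cast
        ext i j
        simp only [Matrix.smul_apply, Matrix.add_apply, Matrix.sub_apply, smul_eq_mul,
          Complex.real_smul, smul_add]
        nth_rewrite 1 [← Complex.re_add_im c]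
        have : Complex.I * Complex.I = -1 := Complex.I_mul_I
        linear_combination (c.im * (v : Mat n) i j) * this
    intro m
    obtain ⟨u, v, hu, hv, e⟩ := key m
    have e1 : ((m - u : realForm h) : Mat n) = Complex.I • (v : Mat n) := by
      rw [AddSubgroupClass.coe_sub, e]
      abel
    have e2 : ((m - u : realForm h) : Mat n) * h
        = h * ((m - u : realForm h) : Mat n).map (starRingEnd ℂ) := (m - u).2
    have e3 : (v : Mat n) * h = h * (v : Mat n).map (starRingEnd ℂ) := v.2
    have e4 : (Complex.I • (v : Mat n)).map (starRingEnd ℂ)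
        = -(Complex.I • (v : Mat n).map (starRingEnd ℂ)) := by
      ext i j
      simp
    rw [e1, e4, mul_neg, mul_smul_comm, ← e3, smul_mul_assoc] at e2
    have e5 : (v : Mat n) * h = 0 := by
      have h2 : (2 * Complex.I) • ((v : Mat n) * h) = 0 := by
        rw [two_mul, add_smul]
        nth_rewrite 1 [e2]
        exact neg_add_cancel _
      rcases smul_eq_zero.mp h2 with h3 | h3
      · exfalso
        have : Complex.I ≠ 0 := Complex.I_ne_zero
        simp at h3
      · exact h3
    have e6 : (v : Mat n) = 0 := by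
      have := congrArg (fun x => x * h⁻¹) e5
      simpa [Matrix.mul_nonsing_inv_cancel_right _ _ hunit] using this
    have e7 : m = u := by
      apply Subtype.ext
      rw [e, e6]
      simp
    rw [e7]
    exact hu
  exact ⟨AlgEquiv.ofBijective Φ ⟨hinj, hsurj⟩⟩

end Pool.Agent.W359.BM
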