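import Pool.Agent.W620.BM.Stm

/-!
# BM-H90: Hilbert 90 for real and quaternionic structures
-/

open Matrix Polynomial

namespace Pool.Agent.W359.BM

open Pool.Agent.W620.BM

theorem infinite_circle : Infinite Circle := by
  have : Infinite (Set.Ioc (-Real.pi) Real.pi) := by
    apply Set.Infinite.to_subtype
    exact Set.Ioc_infinite (by linarith [Real.pi_pos])
  exact Infinite.of_injective _ Circle.argEquiv.symm.injective

theorem exists_circle_avoid (p : ℂ[X]) (hp : p ≠ 0) :
    ∃ z : ℂ, z * (starRingEnd ℂ) z = 1 ∧ p.eval (z ^ 2) ≠ 0 := by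
  classical
  have := infinite_circle
  have hq : p.comp (X ^ 2) ≠ 0 := by
    intro h0
    rw [Polynomial.comp_eq_zero_iff] at h0
    rcases h0 with h0 | ⟨_, h1⟩
    · exact hp h0
    · have h2 : (X ^ 2 : ℂ[X]).natDegree = 0 := by
        rw [h1]
        simp
      rw [Polynomial.natDegree_X_pow] at h2
      omega
  obtain ⟨z, hz⟩ := Infinite.exists_notMem_finset
    ((p.comp (X ^ 2)).roots.toFinset.preimage (fun z : Circle => (z : ℂ))
      (Circle.coe_injective.injOn))
  refine ⟨z, ?_, ?_⟩
  · rw [Complex.mul_conj, Circle.normSq_coe]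
    simp
  · intro h0
    apply hz
    rw [Finset.mem_preimage, Multiset.mem_toFinset, Polynomial.mem_roots hq]
    rw [Polynomial.IsRoot, Polynomial.eval_comp]
    simpa using h0

theorem h90 : S_h90 := by
  intro n h h' s hs hdet hdet' hh hh'
  rcases Nat.eq_zero_or_pos n with rfl | hn
  · exact ⟨1, by simp, Subsingleton.elim _ _⟩
  have : Nonempty (Fin n) := ⟨⟨0, hn⟩⟩
  set σ := starRingEnd ℂ with hσ
  have hunit : IsUnit h.det := isUnit_iff_ne_zero.mpr hdet
  have hcomm : h.map σ * h = algebraMap ℂ (Mat n) s := by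
    have h1 : h * (h.map σ * h) = h * algebraMap ℂ (Mat n) s := by
      rw [← mul_assoc, hh, Algebra.commutes]
    have h2 := congrArg (fun m => h⁻¹ * m) h1
    rw [Matrix.nonsing_inv_mul_cancel_left _ _ hunit,
      Matrix.nonsing_inv_mul_cancel_left _ _ hunit] at h2
    exact h2
  have halg : ∀ t : ℂ, (algebraMap ℂ (Mat n) t).map σ = algebraMap ℂ (Mat n) (σ t) := by
    intro t
    ext i j
    rw [Matrix.map_apply, Matrix.algebraMap_matrix_apply, Matrix.algebraMap_matrix_apply]
    split_ifs <;> simp
  have hmm : ∀ m : Mat n, (m.map σ).map σ = m := by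
    intro m
    ext i j
    simp [hσ]
  have hsr : σ s = s := by
    have h1 : (h * h.map σ).map σ = algebraMap ℂ (Mat n) (σ s) := by
      rw [hh, halg]
    rw [Matrix.map_mul, hmm, hcomm] at h1
    exact (FaithfulSMul.algebraMap_injective ℂ (Mat n) h1).symm
  set N : Mat n := s⁻¹ • (h' * h.map σ) with hN
  obtain ⟨z, hz1, hz2⟩ := exists_circle_avoid (-N).charpoly (Matrix.charpoly_monic _).ne_zero
  have hz0 : z ≠ 0 := by
    intro h0
    rw [h0] at hz1
    simp at hz1
  have hσz : σ z = z⁻¹ := by
    field_simp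
    rw [mul_comm]
    exact hz1
  refine ⟨z • (1 : Mat n) + (σ z) • N, ?_, ?_⟩
  · intro h0
    apply hz2
    rw [Matrix.eval_charpoly]
    have h3 : (Matrix.scalar (Fin n)) (z ^ 2) - -N = z • (z • (1 : Mat n) + (σ z) • N) := by
      rw [hσz, smul_add, smul_smul, smul_smul, mul_inv_cancel₀ hz0, one_smul, sub_neg_eq_add,
        ← pow_two, Matrix.scalar_apply, Matrix.smul_one_eq_diagonal]
    rw [h3, Matrix.det_smul, h0, mul_zero]
  · have hmap : (z • (1 : Mat n) + (σ z) • N).map σ
        = (σ z) • (1 : Mat n) + (z * s⁻¹) • (h'.map σ * h) := by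
      have e1 : (z • (1 : Mat n) + (σ z) • N).map σ = (z • (1 : Mat n)).map σ +
          ((σ z) • N).map σ := by
        ext i j
        simp
      rw [e1]
      congr 1
      · ext i j
        rw [Matrix.map_apply, Matrix.smul_apply, Matrix.smul_apply, smul_eq_mul, smul_eq_mul,
          map_mul, Matrix.one_apply]
        split_ifs <;> simp
      · have e2 : ((h' * h.map σ).map σ) = h'.map σ * h := by
          rw [Matrix.map_mul, hmm]
        rw [← e2, hN]
        ext i j
        rw [Matrix.map_apply, Matrix.smul_apply, Matrix.smul_apply, Matrix.smul_apply,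
          Matrix.map_apply, smul_eq_mul, smul_eq_mul, smul_eq_mul, map_mul, map_mul, map_inv₀, hsr]
        have : σ (σ z) = z := by simp [hσ]
        rw [this]
        ring
    rw [hmap, mul_add, add_mul, mul_smul_comm, mul_smul_comm, smul_mul_assoc, smul_mul_assoc,
      ← mul_assoc, hh', hN, smul_mul_assoc, mul_assoc, hcomm, mul_one, one_mul, smul_smul,
      Algebra.algebraMap_eq_smul_one, smul_mul_assoc, mul_smul_comm, one_mul, mul_one, smul_smul,
      smul_smul, mul_assoc, mul_assoc, inv_mul_cancel₀ hs, mul_one, mul_one, add_comm]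

end Pool.Agent.W359.BM
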