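import Pool.Agent.W620.BM.Stm

/-!
# BM-RET and BM-SEP: the base ring is a summand of an Azumaya algebra; separability idempotents
-/

open scoped TensorProduct

namespace Pool.Agent.W359.BM

open Pool.Agent.W620.BM

theorem ret : S_ret := by
  intro R B _ _ _ _
  obtain ⟨s, hs⟩ := (Module.projective_def (R := R) (P := B)).mp inferInstance
  set J : Ideal R := Ideal.span (Set.range fun k : (s 1).support => s 1 k) with hJ
  have hone : ∑ k ∈ (s 1).support, (s 1 k) • k = (1 : B) := by
    have := hs 1
    rw [Finsupp.linearCombination_apply, Finsupp.sum] at this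
    simpa using this
  have hmem : ∀ k ∈ (s 1).support, s 1 k ∈ J := by
    intro k hk
    exact Ideal.subset_span ⟨⟨k, hk⟩, rfl⟩
  have htop : (⊤ : Submodule R B) ≤ J • ⊤ := by
    intro b _
    have hb : b = ∑ k ∈ (s 1).support, (s 1 k) • (k * b) := by
      calc b = 1 * b := (one_mul b).symm
        _ = _ := by
          rw [← hone, Finset.sum_mul]
          exact Finset.sum_congr (by rw [hone]) fun k _ => by rw [smul_mul_assoc, hone]
    rw [hb]
    exact Submodule.sum_mem _ fun k hk => Submodule.smul_mem_smul (hmem k hk) Submodule.mem_top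
  obtain ⟨r, hr1, hr2⟩ := Submodule.exists_sub_one_mem_and_smul_eq_zero_of_fg_of_le_smul J ⊤
    Module.Finite.fg_top htop
  have hr0 : r = 0 := by
    apply FaithfulSMul.eq_of_smul_eq_smul (M := R) (α := B)
    intro b
    rw [hr2 b Submodule.mem_top, zero_smul]
  have h1J : (1 : R) ∈ J := by
    rw [hr0, zero_sub] at hr1
    exact (Ideal.neg_mem_iff J).mp hr1
  rw [hJ, Ideal.mem_span_range_iff_exists_fun] at h1J
  obtain ⟨c, hc⟩ := h1J
  refine ⟨∑ k : (s 1).support, c k • (Finsupp.lapply (k : B) ∘ₗ s), ?_⟩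
  rw [LinearMap.sum_apply]
  rw [← hc]
  rfl

theorem exists_sum_fin {R M N : Type} [CommRing R] [AddCommGroup M] [AddCommGroup N] [Module R M]
    [Module R N] (x : M ⊗[R] N) :
    ∃ (m : ℕ) (u : Fin m → M) (v : Fin m → N), x = ∑ k, u k ⊗ₜ[R] v k := by
  obtain ⟨S, hS⟩ := TensorProduct.exists_multiset x
  refine ⟨S.toList.length, fun k => (S.toList[k]).1, fun k => (S.toList[k]).2, ?_⟩
  rw [hS, ← Multiset.sum_map_toList]
  exact (Fin.sum_univ_fun_getElem _ _).symm

theorem sep : S_sep := by
  intro R B _ _ _ _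
  obtain ⟨f, hf⟩ := ret R B
  have hbij := (IsAzumaya.bij : Function.Bijective (AlgHom.mulLeftRight R B))
  let F : Module.End R B := (Algebra.linearMap R B) ∘ₗ f
  obtain ⟨x, hx⟩ := hbij.2 F
  obtain ⟨m, u, v, rfl⟩ := exists_sum_fin x
  have hF : ∀ b : B, ∑ k, u k * b * (v k).unop = algebraMap R B (f b) := by
    intro b
    have := LinearMap.congr_fun hx b
    rw [map_sum, LinearMap.sum_apply] at this
    simpa [F] using this
  refine ⟨m, u, fun k => (v k).unop, ?_, ?_⟩
  · have := hF 1
    rw [hf, map_one] at this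
    simpa using this
  · intro c
    have key : ∑ k, (c * u k) ⊗ₜ[R] (v k) = ∑ k, (u k) ⊗ₜ[R] (MulOpposite.op ((v k).unop * c)) := by
      apply hbij.1
      ext b
      rw [map_sum, map_sum, LinearMap.sum_apply, LinearMap.sum_apply]
      simp only [AlgHom.mulLeftRight_apply, MulOpposite.unop_op]
      have e1 : ∑ k, c * u k * b * (v k).unop = c * ∑ k, u k * b * (v k).unop := by
        rw [Finset.mul_sum]
        exact Finset.sum_congr rfl fun k _ => by simp only [mul_assoc]
      have e2 : ∑ k, u k * b * ((v k).unop * c) = (∑ k, u k * b * (v k).unop) * c := by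
        rw [Finset.sum_mul]
        exact Finset.sum_congr rfl fun k _ => by simp only [mul_assoc]
      rw [e1, e2, hF, Algebra.commutes]
    have := congrArg (TensorProduct.map (LinearMap.id : B →ₗ[R] B)
      ((MulOpposite.opLinearEquiv R : B ≃ₗ[R] Bᵐᵒᵖ).symm : Bᵐᵒᵖ →ₗ[R] B)) key
    rw [map_sum, map_sum] at this
    simpa using this

end Pool.Agent.W359.BM
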